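import Pool.Agent.Lib.P7sG.Tape

/-!
Go with the winners, average form: the upper bound of the exact values by the weights is needed
only on the average over the nodes of a level.
-/

set_option autoImplicit false

namespace Pool.Agent.Lib.P7sA

open Finset Pool.Agent.Lib.P7sG

section defs

variable {Nd : Type} (ch : Nd → Bool → Nd)

/-- the sum of `g` over the descendants `j` levels below -/
def lvS (g : Nd → ℝ) : ℕ → Nd → ℝ
  | 0, X => g X
  | j + 1, X => lvS g j (ch X false) + lvS g j (ch X true)

/-- the sum of `g` over the children -/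
def lv1 (g : Nd → ℝ) (X : Nd) : ℝ := g (ch X false) + g (ch X true)

theorem lvS_lv1 (g : Nd → ℝ) : ∀ (j : ℕ) (X : Nd), lvS ch (lv1 ch g) j X = lvS ch g (j + 1) X := by
  intro j
  induction j with
  | zero => intro X; rfl
  | succ j ih =>
    intro X
    show lvS ch (lv1 ch g) j (ch X false) + lvS ch (lv1 ch g) j (ch X true) = _
    rw [ih, ih]
    rfl

theorem lvS_nonneg {g : Nd → ℝ} (hg : ∀ X, 0 ≤ g X) : ∀ (j : ℕ) (X : Nd), 0 ≤ lvS ch g j X := by
  intro j
  induction j with
  | zero => exact hg
  | succ j ih => exact fun X => add_nonneg (ih _) (ih _)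

theorem lv1_nonneg {g : Nd → ℝ} (hg : ∀ X, 0 ≤ g X) (X : Nd) : 0 ≤ lv1 ch g X :=
  add_nonneg (hg _) (hg _)

end defs

/-- the square of the exact value over the weight -/
noncomputable def sq2 {Nd : Type} (e : Nd → ℕ) (Z : Nd → ℝ) (X : Nd) : ℝ := Z X ^ 2 / 2 ^ e X

/-- The data of the analysis: exact values `Z`, exponents `e` with `2 ^ e ≤ α Z` at the valid nodes,
exact at level `a`, and `Z ^ 2 / 2 ^ e` is bounded on every level on the average. -/
structure GoodA {Nd : Type} (ch : Nd → Bool → Nd) (e : Nd → ℕ) (Z : Nd → ℝ) (ok : ℕ → Nd → Prop)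
    (a dm : ℕ) (α β : ℝ) (root : Nd) : Prop where
  rt : ok 0 root
  pos : ∀ j X, ok j X → 0 < Z X
  child : ∀ j X b, j < a → ok j X → ok (j + 1) (ch X b)
  split : ∀ j X, j < a → ok j X → Z X = Z (ch X false) + Z (ch X true)
  low : ∀ j X, ok j X → (2 : ℝ) ^ e X ≤ α * Z X
  leaf : ∀ X, ok a X → Z X = 2 ^ e X
  drop : ∀ j X b, j < a → ok j X → e X ≤ e (ch X b) + dm
  avg : ∀ j ≤ a, lvS ch (sq2 e Z) j root ≤ β * Z root

variable {Nd : Type} {ch : Nd → Bool → Nd} {e : Nd → ℕ} {Z : Nd → ℝ} {ok : ℕ → Nd → Prop}
  {a dm : ℕ} {α β : ℝ} {root : Nd}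

theorem sq2_nonneg (X : Nd) : 0 ≤ sq2 e Z X := by
  unfold sq2
  positivity

namespace GoodA

theorem alpha_nonneg (h : GoodA ch e Z ok a dm α β root) : 0 ≤ α := by
  have h1 := h.low 0 root h.rt
  have h2 := h.pos 0 root h.rt
  by_contra hn
  push Not at hn
  have : α * Z root < 0 := mul_neg_of_neg_of_pos hn h2
  have : (0 : ℝ) < 2 ^ e root := by positivity
  linarith

theorem up_root (h : GoodA ch e Z ok a dm α β root) : Z root / 2 ^ e root ≤ β := by
  have h1 := h.avg 0 (Nat.zero_le _)
  have h2 := h.pos 0 root h.rt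
  have h3 : Z root ^ 2 / 2 ^ e root ≤ β * Z root := h1
  have h4 : Z root * (Z root / 2 ^ e root) ≤ Z root * β := by
    calc Z root * (Z root / 2 ^ e root) = Z root ^ 2 / 2 ^ e root := by ring
      _ ≤ β * Z root := h3
      _ = Z root * β := by ring
  exact le_of_mul_le_mul_left h4 h2

theorem beta_nonneg (h : GoodA ch e Z ok a dm α β root) : 0 ≤ β := by
  refine le_trans ?_ h.up_root
  have := h.pos 0 root h.rt
  positivity

end GoodA

/-! ### One level -/

theorem M_nonneg' {g : Nd → ℝ} (hg : ∀ X, 0 ≤ g X) (L : List Nd) : 0 ≤ M e g L := by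
  induction L with
  | nil => simp [M_nil]
  | cons X L ih =>
    rw [M_cons]
    have := hg X
    positivity

/-- the mean of a sum over the offspring -/
theorem av_stepG {g : Nd → ℝ} {cap : ℕ} (L : List Nd)
    (hd : ∀ X ∈ L, ∀ b, e X ≤ e (ch X b) + dm) (hL : L.length ≤ cap) :
    av (fun ω : Lev cap dm => M e g (stepL ch e (coinL ω) 0 L)) = M e (lv1 ch g) L := by
  simp only [M_stepL _ L hL]
  rw [av_sum_pi (fun (p : Fin cap × Bool) (w : Fin dm → Bool) => term ch e g L p.1.val p.2 w)]
  rw [Fintype.sum_prod_type]
  rw [M, ← sum_pos_eq L hL]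
  refine Finset.sum_congr rfl fun i _ => ?_
  rw [Fintype.sum_bool]
  rcases hX : L[i.val]? with _ | X
  · simp [term, hX, av]
  · have hmem : X ∈ L := List.mem_of_getElem? hX
    have e1 : ∀ b, av (fun w : Fin dm → Bool => term ch e g L i.val b w) =
        g (ch X b) / 2 ^ e X := by
      intro b
      simp only [term, hX]
      exact av_val _ _ _ _ (hd X hmem b)
    rw [e1, e1]
    change g (ch X true) / 2 ^ e X + g (ch X false) / 2 ^ e X =
      (g (ch X false) + g (ch X true)) / 2 ^ e X
    ring

theorem av_stepA_sq {cap : ℕ} (L : List Nd) (hd : ∀ X ∈ L, ∀ b, e X ≤ e (ch X b) + dm)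
    (hsp : ∀ X ∈ L, Z X = Z (ch X false) + Z (ch X true)) (hz : ∀ X ∈ L, ∀ b, 0 ≤ Z (ch X b))
    (hL : L.length ≤ cap) :
    av (fun ω : Lev cap dm => (M e Z (stepL ch e (coinL ω) 0 L)) ^ 2) ≤
      (M e Z L) ^ 2 + M e (lv1 ch (sq2 e Z)) L := by
  have hm := av_stepG (g := Z) L hd hL
  have hM : M e (lv1 ch Z) L = M e Z L := by
    unfold M
    congr 1
    refine List.map_congr_left fun X hX => ?_
    unfold lv1
    rw [← hsp X hX]
  rw [hM] at hm
  simp only [M_stepL _ L hL] at hm ⊢
  rw [av_sum_pi (fun (p : Fin cap × Bool) (w : Fin dm → Bool) => term ch e Z L p.1.val p.2 w)] at hm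
  rw [av_sq_pi (fun (p : Fin cap × Bool) (w : Fin dm → Bool) => term ch e Z L p.1.val p.2 w), hm]
  gcongr
  rw [Fintype.sum_prod_type]
  rw [M, ← sum_pos_eq L hL]
  refine Finset.sum_le_sum fun i _ => ?_
  rw [Fintype.sum_bool]
  rcases hX : L[i.val]? with _ | X
  · simp [term, hX, av]
  · have hmem : X ∈ L := List.mem_of_getElem? hX
    have e1 : ∀ b, av (fun w : Fin dm → Bool => term ch e Z L i.val b w ^ 2) -
        (av (fun w : Fin dm → Bool => term ch e Z L i.val b w)) ^ 2 ≤
        sq2 e Z (ch X b) / 2 ^ e X := by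
      intro b
      simp only [term, hX]
      refine (av_val_sq _ _ _ _ (hd X hmem b) (hz X hmem b) (Z (ch X b) / 2 ^ e (ch X b))
        (le_of_eq (by field_simp))).trans (le_of_eq ?_)
      unfold sq2
      ring
    have h0 := e1 true
    have h1 := e1 false
    change (av (fun w : Fin dm → Bool => term ch e Z L i.val true w ^ 2) -
        (av (fun w : Fin dm → Bool => term ch e Z L i.val true w)) ^ 2) +
        (av (fun w : Fin dm → Bool => term ch e Z L i.val false w ^ 2) -
        (av (fun w : Fin dm → Bool => term ch e Z L i.val false w)) ^ 2) ≤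
        (sq2 e Z (ch X false) + sq2 e Z (ch X true)) / 2 ^ e X
    rw [add_div]
    linarith

/-! ### The run -/

theorem runF_ok (h : GoodA ch e Z ok a dm α β root) {cap : ℕ} {coin : ℕ → ℕ → Bool → ℕ → Bool}
    {L : List Nd} (hL : ∀ X ∈ L, ok 0 X) {j : ℕ} (hj : j ≤ a) :
    ((runF ch e cap coin L j).length ≤ cap → ∀ X ∈ runF ch e cap coin L j, ok j X) ∧
      ∃ j', ∀ X ∈ runF ch e cap coin L j, ok j' X := by
  induction j with
  | zero => exact ⟨fun _ => hL, 0, hL⟩
  | succ j ih =>
    obtain ⟨h1, j', h2⟩ := ih (by omega)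
    rw [runF]
    by_cases hc : (runF ch e cap coin L j).length ≤ cap
    · rw [if_pos hc]
      have h3 : ∀ X ∈ stepL ch e (coin j) 0 (runF ch e cap coin L j), ok (j + 1) X := by
        intro Y hY
        obtain ⟨X, hX, b, rfl⟩ := mem_stepL hY
        exact h.child j X b (by omega) (h1 hc X hX)
      exact ⟨fun _ => h3, j + 1, h3⟩
    · rw [if_neg hc]
      exact ⟨fun hh => absurd hh hc, j', h2⟩

theorem M_nonneg (h : GoodA ch e Z ok a dm α β root) {L : List Nd} {j : ℕ}
    (hL : ∀ X ∈ L, ok j X) : 0 ≤ M e Z L := by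
  induction L with
  | nil => simp [M_nil]
  | cons X L ih =>
    rw [M_cons]
    have h1 := h.pos j X (hL X (by simp))
    have h2 := ih fun Y hY => hL Y (by simp [hY])
    positivity

theorem length_le (h : GoodA ch e Z ok a dm α β root) {L : List Nd} {j : ℕ}
    (hL : ∀ X ∈ L, ok j X) : (L.length : ℝ) ≤ α * M e Z L := by
  induction L with
  | nil => simp [M_nil]
  | cons X L ih =>
    rw [M_cons, mul_add]
    have h1 := h.low j X (hL X (by simp))
    have h2 := ih fun Y hY => hL Y (by simp [hY])
    have h3 : (1 : ℝ) ≤ α * (Z X / 2 ^ e X) := by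
      rw [← mul_div_assoc, le_div_iff₀ (by positivity), one_mul]
      exact h1
    push_cast [List.length_cons]
    linarith

theorem M_leaf (h : GoodA ch e Z ok a dm α β root) {L : List Nd} (hL : ∀ X ∈ L, ok a X) :
    M e Z L = L.length := by
  induction L with
  | nil => simp [M_nil]
  | cons X L ih =>
    rw [M_cons, ih fun Y hY => hL Y (by simp [hY]), h.leaf X (hL X (by simp))]
    rw [div_self (by positivity)]
    push_cast [List.length_cons]
    ring

section avg

variable (h : GoodA ch e Z ok a dm α β root) {cap : ℕ} {L : List Nd} (hL : ∀ X ∈ L, ok 0 X)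

omit h hL in
theorem runF_update {j : ℕ} (hj : j < a) (ω : Fin a → Lev cap dm) (x : Lev cap dm) :
    runF ch e cap (coins (Function.update ω ⟨j, hj⟩ x)) L (j + 1) =
      if (runF ch e cap (coins ω) L j).length ≤ cap then
        stepL ch e (coinL x) 0 (runF ch e cap (coins ω) L j)
      else runF ch e cap (coins ω) L j := by
  have h1 : runF ch e cap (coins (Function.update ω ⟨j, hj⟩ x)) L j =
      runF ch e cap (coins ω) L j := by
    refine runF_congr fun l hl => ?_
    have hla : l < a := by omega
    have : (⟨l, hla⟩ : Fin a) ≠ ⟨j, hj⟩ := by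
      intro hh
      have := congrArg Fin.val hh
      simp at this
      omega
    simp [coins, hla, Function.update_of_ne this]
  have h2 : coins (Function.update ω ⟨j, hj⟩ x) j = coinL x := by
    simp [coins, hj]
  rw [runF, h1, h2]

include h hL

theorem av_runF {j : ℕ} (hj : j ≤ a) :
    av (fun ω : Fin a → Lev cap dm => M e Z (runF ch e cap (coins ω) L j)) = M e Z L := by
  induction j with
  | zero => simp only [runF]; exact av_const _
  | succ j ih =>
    rw [av_update (⟨j, by omega⟩ : Fin a)]
    rw [← ih (by omega)]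
    congr 1
    funext ω
    simp only [runF_update (by omega : j < a)]
    by_cases hc : (runF ch e cap (coins ω) L j).length ≤ cap
    · simp only [hc, if_true]
      have hok := (runF_ok h (cap := cap) (coin := coins ω) hL (by omega : j ≤ a)).1 hc
      rw [av_stepG (g := Z) _ (fun X hX b => h.drop j X b (by omega) (hok X hX)) hc]
      unfold M
      congr 1
      refine List.map_congr_left fun X hX => ?_
      unfold lv1
      rw [← h.split j X (by omega) (hok X hX)]
    · simp only [hc, if_false]
      exact av_const _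

/-- the mean of a sum over the population -/
theorem av_runG {j : ℕ} (hj : j ≤ a) : ∀ {g : Nd → ℝ}, (∀ X, 0 ≤ g X) →
    av (fun ω : Fin a → Lev cap dm => if (runF ch e cap (coins ω) L j).length ≤ cap then
      M e g (runF ch e cap (coins ω) L j) else 0) ≤ M e (lvS ch g j) L := by
  induction j with
  | zero =>
    intro g hg
    simp only [runF]
    rw [av_const]
    split_ifs
    · exact le_rfl
    · exact M_nonneg' (fun X => lvS_nonneg ch hg 0 X) L
  | succ j ih =>
    intro g hg
    rw [av_update (⟨j, by omega⟩ : Fin a)]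
    have h1 := ih (by omega) (g := lv1 ch g) (lv1_nonneg ch hg)
    have e1 : lvS ch (lv1 ch g) j = lvS ch g (j + 1) := funext (lvS_lv1 ch g j)
    rw [e1] at h1
    refine le_trans (av_mono fun ω => ?_) h1
    simp only [runF_update (by omega : j < a)]
    by_cases hc : (runF ch e cap (coins ω) L j).length ≤ cap
    · simp only [hc, if_true]
      have hok := (runF_ok h (cap := cap) (coin := coins ω) hL (by omega : j ≤ a)).1 hc
      rw [← av_stepG (g := g) _ (fun X hX b => h.drop j X b (by omega) (hok X hX)) hc]
      refine av_mono fun x => ?_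
      split_ifs
      · exact le_rfl
      · exact M_nonneg' hg _
    · simp only [hc, if_false]
      rw [av_const]

theorem av_runF_sq {j : ℕ} (hj : j ≤ a) :
    av (fun ω : Fin a → Lev cap dm => (M e Z (runF ch e cap (coins ω) L j)) ^ 2) ≤
      (M e Z L) ^ 2 + ∑ i ∈ range j, M e (lvS ch (sq2 e Z) (i + 1)) L := by
  induction j with
  | zero => simp only [runF]; rw [av_const]; simp
  | succ j ih =>
    rw [av_update (⟨j, by omega⟩ : Fin a)]
    have h1 : av (fun ω : Fin a → Lev cap dm => av fun x : Lev cap dm =>
        (M e Z (runF ch e cap (coins (Function.update ω ⟨j, by omega⟩ x)) L (j + 1))) ^ 2) ≤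
        av (fun ω : Fin a → Lev cap dm => (M e Z (runF ch e cap (coins ω) L j)) ^ 2 +
          if (runF ch e cap (coins ω) L j).length ≤ cap then
            M e (lv1 ch (sq2 e Z)) (runF ch e cap (coins ω) L j) else 0) := by
      refine av_mono fun ω => ?_
      simp only [runF_update (by omega : j < a)]
      by_cases hc : (runF ch e cap (coins ω) L j).length ≤ cap
      · simp only [hc, if_true]
        have hok := (runF_ok h (cap := cap) (coin := coins ω) hL (by omega : j ≤ a)).1 hc
        exact av_stepA_sq _ (fun X hX b => h.drop j X b (by omega) (hok X hX))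
          (fun X hX => h.split j X (by omega) (hok X hX))
          (fun X hX b => (h.pos _ _ (h.child j X b (by omega) (hok X hX))).le) hc
      · simp only [hc, if_false]
        rw [av_const, add_zero]
    refine h1.trans ?_
    rw [av_add, sum_range_succ]
    have h2 := av_runG h (cap := cap) hL (by omega : j ≤ a) (g := lv1 ch (sq2 e Z))
      (lv1_nonneg ch sq2_nonneg)
    have e1 : lvS ch (lv1 ch (sq2 e Z)) j = lvS ch (sq2 e Z) (j + 1) :=
      funext (lvS_lv1 ch _ j)
    rw [e1] at h2
    have := ih (by omega)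
    linarith

/-- variance of the final weighted size -/
theorem av_var :
    av (fun ω : Fin a → Lev cap dm =>
      (M e Z (runF ch e cap (coins ω) L a) - M e Z L) ^ 2) ≤
        ∑ i ∈ range a, M e (lvS ch (sq2 e Z) (i + 1)) L := by
  have h1 := av_runF h (cap := cap) hL (le_refl a)
  have h2 := av_runF_sq h (cap := cap) hL (le_refl a)
  have e1 : (fun ω : Fin a → Lev cap dm =>
      (M e Z (runF ch e cap (coins ω) L a) - M e Z L) ^ 2) =
      fun ω => ((M e Z (runF ch e cap (coins ω) L a)) ^ 2 +
        (-(2 * M e Z L)) * M e Z (runF ch e cap (coins ω) L a)) + (M e Z L) ^ 2 := by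
    funext ω; ring
  rw [e1, av_add, av_add, av_mul_left, h1, av_const]
  nlinarith

end avg

/-- The result of a good run. -/
theorem good_run (h : GoodA ch e Z ok a dm α β root) {cap K : ℕ}
    {t : ℝ} (ht : 1 ≤ t) (hcap : 2 * (α * β) * K ≤ cap) (coin : ℕ → ℕ → Bool → ℕ → Bool)
    (hgood : |M e Z (runF ch e cap coin (List.replicate K root) a) -
      M e Z (List.replicate K root)| ≤ M e Z (List.replicate K root) / t) :
    |((runC ch e cap coin (List.replicate K root) a).length : ℝ) * 2 ^ e root -
      K * Z root| ≤ K * Z root / t := by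
  have hL : ∀ X ∈ List.replicate K root, ok 0 X := by
    intro X hX
    rw [List.eq_of_mem_replicate hX]
    exact h.rt
  have hM0 : M e Z (List.replicate K root) = K * (Z root / 2 ^ e root) := M_replicate K root
  have hα : 0 ≤ α := h.alpha_nonneg
  have hZ := h.pos 0 root h.rt
  obtain ⟨j', hj'⟩ := (runF_ok h (cap := cap) (coin := coin) hL (le_refl a)).2
  have h1 := length_le h hj'
  have h2 : M e Z (runF ch e cap coin (List.replicate K root) a) ≤
      2 * M e Z (List.replicate K root) := by
    have h3 := (abs_le.1 hgood).2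
    have h4 : M e Z (List.replicate K root) / t ≤ M e Z (List.replicate K root) :=
      div_le_self (M_nonneg h hL) ht
    linarith
  have h5 : M e Z (List.replicate K root) ≤ β * K := by
    rw [hM0]
    have := h.up_root
    have hK : (0 : ℝ) ≤ K := Nat.cast_nonneg _
    nlinarith
  have h6 : (runF ch e cap coin (List.replicate K root) a).length ≤ cap := by
    have : ((runF ch e cap coin (List.replicate K root) a).length : ℝ) ≤ cap := by
      refine le_trans h1 (le_trans ?_ hcap)
      have : α * M e Z (runF ch e cap coin (List.replicate K root) a) ≤ α * (2 * (β * K)) :=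
        mul_le_mul_of_nonneg_left (by linarith) hα
      nlinarith
    exact_mod_cast this
  rw [runC_eq h6]
  have h7 := M_leaf h ((runF_ok h hL (le_refl a)).1 h6)
  rw [h7, hM0] at hgood
  have h8 : (0 : ℝ) < 2 ^ e root := by positivity
  have e1 : ((runF ch e cap coin (List.replicate K root) a).length : ℝ) * 2 ^ e root -
      K * Z root = (((runF ch e cap coin (List.replicate K root) a).length : ℝ) -
        K * (Z root / 2 ^ e root)) * 2 ^ e root := by
    field_simp
  rw [e1, abs_mul, abs_of_pos h8]
  calc _ ≤ (K * (Z root / 2 ^ e root) / t) * 2 ^ e root :=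
        mul_le_mul_of_nonneg_right hgood h8.le
    _ = K * Z root / t := by
        field_simp

open Classical in
/-- Fraction of good runs. -/
theorem av_good (h : GoodA ch e Z ok a dm α β root) {cap K : ℕ}
    {t : ℝ} (ht : 1 ≤ t) (hcap : 2 * (α * β) * K ≤ cap) (hK : 0 < K) :
    1 - a * (α * β) * t ^ 2 / K ≤
      av fun ω : Fin a → Lev cap dm =>
        if |((runC ch e cap (coins ω) (List.replicate K root) a).length : ℝ) * 2 ^ e root -
          K * Z root| ≤ K * Z root / t then (1 : ℝ) else 0 := by
  have hL : ∀ X ∈ List.replicate K root, ok 0 X := by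
    intro X hX
    rw [List.eq_of_mem_replicate hX]
    exact h.rt
  have hM0 : M e Z (List.replicate K root) = K * (Z root / 2 ^ e root) := M_replicate K root
  have hZ := h.pos 0 root h.rt
  have hKr : (0 : ℝ) < K := by exact_mod_cast hK
  have hMpos : 0 < M e Z (List.replicate K root) := by rw [hM0]; positivity
  have hα : 0 ≤ α := h.alpha_nonneg
  have hβ : 0 ≤ β := h.beta_nonneg
  have ht0 : 0 < t := by linarith
  have hv : av (fun ω : Fin a → Lev cap dm =>
      (M e Z (runF ch e cap (coins ω) (List.replicate K root) a) -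
        M e Z (List.replicate K root)) ^ 2) ≤ a * (β * M e Z (List.replicate K root)) := by
    refine (av_var h (cap := cap) hL).trans ?_
    refine (sum_le_card_nsmul _ _ (β * M e Z (List.replicate K root)) fun i hi => ?_).trans
      (le_of_eq (by rw [card_range, nsmul_eq_mul]))
    have h1 := h.avg (i + 1) (by have := mem_range.1 hi; omega)
    have h2 : M e (lvS ch (sq2 e Z) (i + 1)) (List.replicate K root) =
        K * (lvS ch (sq2 e Z) (i + 1) root / 2 ^ e root) := M_replicate K root
    rw [h2, hM0]
    have h3 : lvS ch (sq2 e Z) (i + 1) root / 2 ^ e root ≤ β * Z root / 2 ^ e root :=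
      div_le_div_of_nonneg_right h1 (by positivity)
    calc (K : ℝ) * (lvS ch (sq2 e Z) (i + 1) root / 2 ^ e root)
        ≤ K * (β * Z root / 2 ^ e root) := mul_le_mul_of_nonneg_left h3 hKr.le
      _ = β * (K * (Z root / 2 ^ e root)) := by ring
  have hc := cheb (fun ω : Fin a → Lev cap dm =>
      M e Z (runF ch e cap (coins ω) (List.replicate K root) a) -
        M e Z (List.replicate K root)) (M e Z (List.replicate K root) / t)
      (a * (β * M e Z (List.replicate K root))) (by positivity) hv
      (fun ω => |M e Z (runF ch e cap (coins ω) (List.replicate K root) a) -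
        M e Z (List.replicate K root)| ≤ M e Z (List.replicate K root) / t)
      (fun ω hω => (not_le.1 hω).le)
  rcases hc with hc | hc
  · have h1 : a * (β * M e Z (List.replicate K root)) / (M e Z (List.replicate K root) / t) ^ 2 ≤
        a * (α * β) * t ^ 2 / K := by
      have h2 : a * (β * M e Z (List.replicate K root)) / (M e Z (List.replicate K root) / t) ^ 2 =
          a * β * t ^ 2 / M e Z (List.replicate K root) := by
        field_simp
      rw [h2, div_le_div_iff₀ hMpos hKr]
      have h3 : (K : ℝ) ≤ α * M e Z (List.replicate K root) := by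
        have := length_le h hL
        simpa using this
      have h4 : 0 ≤ a * β * t ^ 2 := by positivity
      calc a * β * t ^ 2 * K ≤ a * β * t ^ 2 * (α * M e Z (List.replicate K root)) :=
            mul_le_mul_of_nonneg_left h3 h4
        _ = a * (α * β) * t ^ 2 * M e Z (List.replicate K root) := by ring
    refine le_trans (by linarith) (le_trans hc ?_)
    refine av_mono fun ω => ?_
    by_cases hω : |M e Z (runF ch e cap (coins ω) (List.replicate K root) a) -
        M e Z (List.replicate K root)| ≤ M e Z (List.replicate K root) / t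
    · rw [if_pos hω, if_pos (good_run h ht hcap _ hω)]
    · rw [if_neg hω]
      split_ifs <;> norm_num
  · exact (hc.false (fun _ _ _ => true)).elim

open Classical in
/-- Fraction of good tapes. -/
theorem av_tape (h : GoodA ch e Z ok a dm α β root) {cap K : ℕ}
    {t : ℝ} (ht : 1 ≤ t) (hcap : 2 * (α * β) * K ≤ cap) (hK : 0 < K)
    {m : ℕ} (off : ℕ) (hm : off + a * cap * 2 * dm ≤ m) :
    1 - a * (α * β) * t ^ 2 / K ≤
      av fun τ : Fin m → Bool =>
        if |((runC ch e cap (coinT (List.ofFn τ) off cap dm) (List.replicate K root) a).length : ℝ) *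
          2 ^ e root - K * Z root| ≤ K * Z root / t then (1 : ℝ) else 0 := by
  refine (av_good h ht hcap hK).trans (le_of_eq ?_)
  rw [← av_omT off a cap dm hm]
  congr 1
  funext τ
  rw [runC_congr (coin := coins (omT off a cap dm hm τ))
    (coin' := coinT (List.ofFn τ) off cap dm) (fun l hl => coins_omT off a cap dm hm τ l hl)]

/-! ### A superadditive bound -/

theorem lvS_le {g H : Nd → ℝ} (hchild : ∀ j X b, j < a → ok j X → ok (j + 1) (ch X b))
    (hg : ∀ j X, ok j X → g X ≤ H X)
    (hH : ∀ j X, j < a → ok j X → H (ch X false) + H (ch X true) ≤ H X) :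
    ∀ (i j : ℕ) (X : Nd), i + j ≤ a → ok i X → lvS ch g j X ≤ H X := by
  intro i j
  induction j generalizing i with
  | zero => exact fun X _ hX => hg i X hX
  | succ j ih =>
    intro X hij hX
    have h1 := ih (i + 1) (ch X false) (by omega) (hchild i X false (by omega) hX)
    have h2 := ih (i + 1) (ch X true) (by omega) (hchild i X true (by omega) hX)
    have h3 := hH i X (by omega) hX
    show lvS ch g j (ch X false) + lvS ch g j (ch X true) ≤ H X
    linarith

/-- A system with a superadditive bound `P` of `Z ^ 2 / 2 ^ e`. -/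
theorem goodA_of_sup {P : Nd → ℝ} (rt : ok 0 root) (pos : ∀ j X, ok j X → 0 < Z X)
    (child : ∀ j X b, j < a → ok j X → ok (j + 1) (ch X b))
    (split : ∀ j X, j < a → ok j X → Z X = Z (ch X false) + Z (ch X true))
    (low : ∀ j X, ok j X → (2 : ℝ) ^ e X ≤ α * Z X)
    (leaf : ∀ X, ok a X → Z X = 2 ^ e X)
    (drop : ∀ j X b, j < a → ok j X → e X ≤ e (ch X b) + dm)
    (up : ∀ j X, ok j X → Z X ^ 2 ≤ P X * 2 ^ e X)
    (sup : ∀ j X, j < a → ok j X → P (ch X false) + P (ch X true) ≤ P X)
    (hP : P root ≤ β * Z root) : GoodA ch e Z ok a dm α β root where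
  rt := rt
  pos := pos
  child := child
  split := split
  low := low
  leaf := leaf
  drop := drop
  avg := by
    intro j hj
    refine (lvS_le child (H := P) (fun i X hX => ?_) sup 0 j root (by omega) rt).trans hP
    unfold sq2
    rw [div_le_iff₀ (by positivity)]
    exact up i X hX

end Pool.Agent.Lib.P7sA
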