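import Pool.Agent.Lib.SubBisC.CGen
import Pool.Agent.Lib.P7sA.WinA

/-!
The success probability of a population over a system that is good on the average.
-/

set_option autoImplicit false

open Finset
open scoped BigOperators

namespace Pool.Agent.Lib.P7sA

open Pool.Agent.Lib.Pa7c826 Pool.Agent.Lib.Pa7c826t Pool.Agent.Lib.SubBisX
  Pool.Agent.Lib.SubBisX.Node Pool.Agent.Lib.SubBisX.Gen Pool.Agent.Lib.SubBisX.Prob
  Pool.Agent.Lib.SubBisX.Core Pool.Agent.Lib.SubBisC P7sG

open Classical in
/-- **The success probability of a population**, average form. -/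
theorem prob_SA {S : Type} [Fintype S] [Nonempty S] {L : ℕ} {dec : (ℕ → Bool) → S}
    (hdec : Seed.Unif L dec) {bad : S → Prop} (hbad : 8 * (univ.filter bad).card ≤ Fintype.card S)
    {Nd : Type} {ch : Nd → Bool → Nd} {e : S → Nd → ℕ} {Z : Nd → ℝ} {ok : ℕ → Nd → Prop}
    {lev dm : ℕ} {α β : ℝ} {root : Nd}
    (hgood : ∀ s, ¬ bad s → GoodA ch (e s) Z ok lev dm α β root)
    {K cap m : ℕ} {t : ℝ} (ht : 1 ≤ t) (hK0 : 0 < K)
    (hK : 8 * (lev * (α * β) * t ^ 2) ≤ K) (hcap : 2 * (α * β) * K ≤ cap)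
    (hm : L + lev * cap * 2 * dm ≤ m) :
    3 * 2 ^ m ≤ 4 * (univ.filter fun τ : Fin m → Bool =>
      |(cntG ch (e (dec (str (List.ofFn τ)))) root lev K cap dm L (List.ofFn τ) : ℝ) *
          2 ^ e (dec (str (List.ofFn τ))) root - K * Z root| ≤ K * Z root / t).card := by
  obtain ⟨r, rfl⟩ : ∃ r, m = L + r := ⟨m - L, by omega⟩
  refine split_tapes _ (fun σ => bad (dec (str (List.ofFn σ)))) (bad_tapesE hdec hbad) ?_
  intro σ hσ
  have hsys := hgood _ hσ
  have h1 := P7sA.av_tape hsys (cap := cap) (K := K) ht hcap hK0 (m := r) 0 (by omega)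
  have hK' : (0 : ℝ) < K := by exact_mod_cast hK0
  have e1 : ∀ ρ : Fin r → Bool,
      (|(cntG ch (e (dec (str (List.ofFn (Fin.append σ ρ))))) root lev K cap dm L
          (List.ofFn (Fin.append σ ρ)) : ℝ) *
        2 ^ e (dec (str (List.ofFn (Fin.append σ ρ)))) root - K * Z root| ≤ K * Z root / t) ↔
      (|((runC ch (e (dec (str (List.ofFn σ)))) cap (coinT (List.ofFn ρ) 0 cap dm)
        (List.replicate K root) lev).length : ℝ) *
          2 ^ e (dec (str (List.ofFn σ))) root - K * Z root| ≤ K * Z root / t) := by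
    intro ρ
    unfold cntG
    rw [dec_append hdec, coinT_append]
  have h2 : (univ.filter fun ρ : Fin r → Bool =>
      ¬ (|(cntG ch (e (dec (str (List.ofFn (Fin.append σ ρ))))) root lev K cap dm L
          (List.ofFn (Fin.append σ ρ)) : ℝ) *
        2 ^ e (dec (str (List.ofFn (Fin.append σ ρ)))) root - K * Z root| ≤ K * Z root / t)) =
      univ.filter fun ρ : Fin r → Bool =>
      ¬ (|((runC ch (e (dec (str (List.ofFn σ)))) cap (coinT (List.ofFn ρ) 0 cap dm)
        (List.replicate K root) lev).length : ℝ) *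
          2 ^ e (dec (str (List.ofFn σ))) root - K * Z root| ≤ K * Z root / t) :=
    filter_congr fun ρ _ => not_congr (e1 ρ)
  rw [h2]
  set P : (Fin r → Bool) → Prop := fun ρ =>
    |((runC ch (e (dec (str (List.ofFn σ)))) cap (coinT (List.ofFn ρ) 0 cap dm)
        (List.replicate K root) lev).length : ℝ) *
          2 ^ e (dec (str (List.ofFn σ))) root - K * Z root| ≤ K * Z root / t with hP
  have h3 : 1 - lev * (α * β) * t ^ 2 / K ≤
      ((univ.filter P).card : ℝ) / Fintype.card (Fin r → Bool) := by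
    refine h1.trans (le_of_eq ?_)
    unfold P7sG.av
    rw [card_filter]
    push_cast
    rfl
  have hcr : (0 : ℝ) < Fintype.card (Fin r → Bool) := by
    have : 0 < Fintype.card (Fin r → Bool) := Fintype.card_pos
    exact_mod_cast this
  have h4 : lev * (α * β) * t ^ 2 / K ≤ 1 / 8 := by
    rw [div_le_iff₀ hK']
    linarith
  have h5 : (7 / 8 : ℝ) * Fintype.card (Fin r → Bool) ≤ (univ.filter P).card := by
    rw [le_div_iff₀ hcr] at h3
    refine le_trans (mul_le_mul_of_nonneg_right ?_ hcr.le) h3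
    linarith
  have h6 : ((univ.filter P).card : ℝ) + (univ.filter fun ρ => ¬ P ρ).card =
      Fintype.card (Fin r → Bool) := by
    have := card_filter_add_card_filter_not (s := (univ : Finset (Fin r → Bool))) P
    rw [card_univ] at this
    exact_mod_cast this
  have h7 : (8 : ℝ) * (univ.filter fun ρ => ¬ P ρ).card ≤ Fintype.card (Fin r → Bool) := by
    linarith
  have h8 : ((8 * (univ.filter fun ρ => ¬ P ρ).card : ℕ) : ℝ) ≤
      (Fintype.card (Fin r → Bool) : ℕ) := by
    rw [Nat.cast_mul]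
    exact h7
  exact Nat.cast_le.1 h8

end Pool.Agent.Lib.P7sA
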