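import Pool.Agent.Lib.SubBisC.CTree
import Pool.Agent.Lib.SubBisG.FewInd
import Pool.Agent.Lib.P7sA.WinA

/-!
The tree of the decisions on the sites is a good system on the average: the estimates may be too
small by `δ + η mean few`, where the mean is over the independent subsets of the mask.
-/

set_option autoImplicit false

open scoped BigOperators

namespace Pool.Agent.Lib.P7sA

open Finset Pool.Agent.Lib.Pa7c826 Pool.Agent.Lib.Pa7c826t Pool.Agent.Lib.SubBisX
  Pool.Agent.Lib.SubBisC Pool.Agent.Lib.SubBisG

/-- the independent subsets -/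
def indS (adj : ℕ → ℕ → Bool) (W : Finset ℕ) : Finset (Finset ℕ) :=
  W.powerset.filter fun I => ∀ u ∈ I, ∀ v ∈ I, adj u v = false

theorem card_indS (adj : ℕ → ℕ → Bool) (W : Finset ℕ) : (indS adj W).card = ind adj W := rfl

/-- the mean over the independent subsets -/
noncomputable def meanI (adj : ℕ → ℕ → Bool) (W : Finset ℕ) (f : Finset ℕ → ℝ) : ℝ :=
  (∑ I ∈ indS adj W, f I) / ind adj W

/-- the sum over the independent subsets with the weights `2 ^ (η few)` -/
noncomputable def PW (adj adjH : ℕ → ℕ → Bool) (a N d : ℕ) (η : ℝ) (W : Finset ℕ) : ℝ :=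
  ∑ I ∈ indS adj W, (2 : ℝ) ^ (η * fewI adj adjH a N d W I)

variable {adj adjH : ℕ → ℕ → Bool} {a N d : ℕ} {η : ℝ}

theorem PW_nonneg (W : Finset ℕ) : 0 ≤ PW adj adjH a N d η W :=
  sum_nonneg fun _ _ => by positivity

/-- Jensen -/
theorem jensen_indS (W : Finset ℕ) (f : Finset ℕ → ℝ) :
    ind adj W * (2 : ℝ) ^ meanI adj W f ≤ ∑ I ∈ indS adj W, (2 : ℝ) ^ f I := by
  have hZ : (0 : ℝ) < ind adj W := by exact_mod_cast ind_pos (adj := adj) W
  set m := meanI adj W f with hm
  have h1 : ∀ I, (2 : ℝ) ^ m * (1 + (f I - m) * Real.log 2) ≤ (2 : ℝ) ^ f I := by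
    intro I
    have h2 : (2 : ℝ) ^ f I = (2 : ℝ) ^ m * Real.exp ((f I - m) * Real.log 2) := by
      rw [mul_comm (f I - m) (Real.log 2), ← Real.rpow_def_of_pos (by norm_num),
        ← Real.rpow_add (by norm_num)]
      congr 1
      ring
    rw [h2]
    apply mul_le_mul_of_nonneg_left _ (by positivity)
    have := Real.add_one_le_exp ((f I - m) * Real.log 2)
    linarith
  have h3 := sum_le_sum fun I (_ : I ∈ indS adj W) => h1 I
  rw [← mul_sum, sum_add_distrib, ← sum_mul, sum_sub_distrib, sum_const, sum_const, card_indS,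
    nsmul_eq_mul, nsmul_eq_mul, mul_one] at h3
  have h4 : ∑ I ∈ indS adj W, f I = ind adj W * m := by
    rw [hm]
    unfold meanI
    field_simp
  rw [h4, sub_self, zero_mul, add_zero] at h3
  linarith

/-- **Superadditivity.** -/
theorem PW_super (hs : ∀ u v, adj u v = adj v u) (hl : ∀ u, adj u u = false)
    (hsub : ∀ u v, adjH u v = true → adj u v = true) (h0 : 0 ≤ η) {W : Finset ℕ} {x : ℕ}
    (hx : x ∈ W) :
    PW adj adjH a N d η (W.erase x) +
      PW adj adjH a N d η ((W.erase x).filter fun u => adj x u = false) ≤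
      PW adj adjH a N d η W := by
  classical
  set W' := (W.erase x).filter fun u => adj x u = false with hW'
  have hsplit : PW adj adjH a N d η W =
      ∑ I ∈ (indS adj W).filter (fun I => x ∉ I), (2 : ℝ) ^ (η * fewI adj adjH a N d W I) +
      ∑ I ∈ (indS adj W).filter (fun I => ¬ x ∉ I), (2 : ℝ) ^ (η * fewI adj adjH a N d W I) :=
    (sum_filter_add_sum_filter_not _ _ _).symm
  rw [hsplit]
  refine add_le_add ?_ ?_
  · have h1 : indS adj (W.erase x) ⊆ (indS adj W).filter fun I => x ∉ I := by
      intro I hI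
      unfold indS at hI ⊢
      rw [mem_filter, mem_powerset] at hI
      rw [mem_filter, mem_filter, mem_powerset]
      exact ⟨⟨hI.1.trans (erase_subset _ _), hI.2⟩, fun h => by simpa using hI.1 h⟩
    refine le_trans ?_ (sum_le_sum_of_subset_of_nonneg h1 fun _ _ _ => by positivity)
    refine sum_le_sum fun I _ => ?_
    apply Real.rpow_le_rpow_of_exponent_le (by norm_num)
    apply mul_le_mul_of_nonneg_left _ h0
    exact_mod_cast fewI_mono_mask (erase_subset x W)
  · have hinj : Set.InjOn (fun I : Finset ℕ => insert x I) (indS adj W' : Set (Finset ℕ)) := by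
      intro I hI J hJ h
      have hxI : ∀ K, K ∈ (indS adj W' : Set (Finset ℕ)) → x ∉ K := by
        intro K hK hxK
        have h2 : K ⊆ W' := by
          have := Finset.mem_coe.1 hK
          unfold indS at this
          rw [mem_filter, mem_powerset] at this
          exact this.1
        have := h2 hxK
        rw [hW'] at this
        simp at this
      have e1 : (insert x I).erase x = I := erase_insert (hxI I hI)
      have e2 : (insert x J).erase x = J := erase_insert (hxI J hJ)
      rw [← e1, ← e2]
      exact congrArg (fun K : Finset ℕ => K.erase x) h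
    have h1 : (indS adj W').image (fun I => insert x I) ⊆
        (indS adj W).filter fun I => ¬ x ∉ I := by
      intro K hK
      obtain ⟨I, hI, rfl⟩ := mem_image.1 hK
      unfold indS at hI ⊢
      rw [mem_filter, mem_powerset] at hI
      rw [mem_filter, mem_filter, mem_powerset]
      have hIW : ∀ u ∈ I, u ∈ W ∧ adj x u = false := by
        intro u hu
        have := hI.1 hu
        rw [hW', mem_filter, mem_erase] at this
        exact ⟨this.1.2, this.2⟩
      refine ⟨⟨insert_subset hx fun u hu => (hIW u hu).1, ?_⟩, by simp⟩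
      intro u hu v hv
      rcases mem_insert.1 hu with hu1 | hu1
      · rcases mem_insert.1 hv with hv1 | hv1
        · rw [hu1, hv1]
          exact hl _
        · rw [hu1]
          exact (hIW v hv1).2
      · rcases mem_insert.1 hv with hv1 | hv1
        · rw [hs, hv1]
          exact (hIW u hu1).2
        · exact hI.2 u hu1 v hv1
    refine le_trans ?_ (sum_le_sum_of_subset_of_nonneg h1 fun _ _ _ => by positivity)
    rw [sum_image hinj]
    refine sum_le_sum fun I hI => ?_
    apply Real.rpow_le_rpow_of_exponent_le (by norm_num)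
    apply mul_le_mul_of_nonneg_left _ h0
    norm_cast
    unfold fewI
    refine card_le_card fun b hb => ?_
    rw [mem_filter, mem_filter] at hb ⊢
    obtain ⟨⟨hbW, hab⟩, ⟨v, hv, hvb⟩, hf⟩ := hb
    rw [hW', mem_filter, mem_erase] at hbW
    refine ⟨⟨hbW.1.2, hab⟩, ⟨v, mem_insert_of_mem hv, hvb⟩, ?_⟩
    have e1 : (insert x I).filter (fun v => adjH v b = true) =
        I.filter fun v => adjH v b = true := by
      rw [filter_insert, if_neg]
      intro h
      have := hsub x b h
      rw [hbW.2] at this
      exact absurd this (by simp)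
    rw [e1]
    exact hf

/-- **The system.** -/
theorem good_systemA {n : ℕ} {C : Finset ℕ} {e : Finset ℕ → ℕ} {δ₁ δ₂ β₀ : ℝ}
    (h : Cov n a adj C) (hsub : ∀ u v, adjH u v = true → adj u v = true) (h0 : 0 ≤ η)
    (hup : ∀ W ⊆ range (n + n), (e W : ℝ) ≤ Real.logb 2 (ind adj W) + δ₁)
    (hlow : ∀ W ⊆ range (n + n), Real.logb 2 (ind adj W) ≤
      e W + (δ₂ + η * meanI adj W fun I => (fewI adj adjH a N d W I : ℝ)))
    (hleaf : ∀ W ⊆ range (n + n), W ∩ C = ∅ → ind adj W = 2 ^ e W)
    {dm : ℕ} (hdm : 2 * n + δ₁ ≤ dm)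
    (hroot : PW adj adjH a N d η (range (n + n)) ≤ β₀ * ind adj (range (n + n))) :
    GoodA (chC n C adj) (fun X => e X.2) (fun X => (ind adj X.2 : ℝ)) (okC n C) C.card dm
      ((2 : ℝ) ^ δ₁) ((2 : ℝ) ^ δ₂ * β₀) (0, range (n + n)) := by
  have hpos : ∀ W : Finset ℕ, (0 : ℝ) < ind adj W := fun W => by
    exact_mod_cast ind_pos (adj := adj) W
  have hchild : ∀ j X b, j < C.card → okC n C j X → okC n C (j + 1) (chC n C adj X b) := by
    rintro j ⟨i, W⟩ b hj ⟨h1, h2, h3, h4⟩
    simp only at h1 h2 h3 h4
    subst h1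
    have hsub : (chC n C adj (i, W) b).2 ⊆ W := filter_subset _ _
    have hv := cs_lt h.sub hj
    refine ⟨rfl, hsub.trans h2, fun l hl hli hmem => ?_, fun l hl hil => ?_⟩
    · rcases Nat.lt_succ_iff_lt_or_eq.1 hli with h5 | h5
      · exact h3 l hl h5 (hsub hmem)
      · subst h5
        unfold chC at hmem
        simp only [mem_filter] at hmem
        rw [if_pos hmem.1] at hmem
        exact hmem.2.1 rfl
    · unfold chC
      simp only [mem_filter]
      refine ⟨h4 l hl (by omega), ?_⟩
      split_ifs with h6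
      · refine ⟨by omega, fun _ => ?_⟩
        exact h.adj_ge (by omega)
      · intro h7
        have h8 : cs n C l = cs n C i := by omega
        have := cs_inj h.sub hl hj h8
        omega
  -- the children of a node are the two masks of a vertex `x` of the mask
  have hkids : ∀ j X, j < C.card → okC n C j X → ∃ x ∈ X.2,
      (chC n C adj X false).2 = X.2.erase x ∧
      (chC n C adj X true).2 = (X.2.erase x).filter fun u => adj x u = false := by
    rintro j ⟨i, W⟩ hj ⟨h1, h2, h3, h4⟩
    simp only at h1 h2 h3 h4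
    subst h1
    by_cases h6 : cs n C i ∈ W
    · refine ⟨cs n C i, h6, ?_, ?_⟩
      · unfold chC
        ext u
        simp only [mem_filter, mem_erase, if_pos h6]
        simp
        tauto
      · unfold chC
        ext u
        simp only [mem_filter, mem_erase, if_pos h6, true_implies]
        tauto
    · refine ⟨n + cs n C i, h4 i hj le_rfl, ?_, ?_⟩
      · unfold chC
        ext u
        simp only [mem_filter, mem_erase, if_neg h6]
        tauto
      · unfold chC
        ext u
        simp only [mem_filter, mem_erase, if_neg h6]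
        have h7 : adj (n + cs n C i) u = false := by
          rw [h.symm]
          exact h.adj_ge (by omega)
        simp only [h7, and_true]
        tauto
  refine goodA_of_sup (P := fun X => (2 : ℝ) ^ δ₂ * PW adj adjH a N d η X.2) (okC_root h)
    (fun j X _ => hpos _) hchild ?_ ?_ ?_ ?_ ?_ ?_ ?_
  · intro j X hj hX
    obtain ⟨x, hx, e0, e1⟩ := hkids j X hj hX
    simp only [e0, e1]
    exact_mod_cast ind_erase h.symm h.irrefl hx
  · rintro j ⟨i, W⟩ ⟨h1, h2, h3⟩
    have h4 := hup W h2
    have h5 : (e W : ℝ) - δ₁ ≤ Real.logb 2 (ind adj W) := by linarith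
    rw [Real.le_logb_iff_rpow_le (by norm_num) (hpos W), Real.rpow_sub (by norm_num),
      Real.rpow_natCast, div_le_iff₀ (by positivity)] at h5
    simp only
    linarith
  · rintro ⟨i, W⟩ ⟨h1, h2, h3, h5⟩
    simp only at h1 h2 h3 h5
    have h4 := hleaf W h2 (by
      rw [eq_empty_iff_forall_notMem]
      intro v hv
      rw [mem_inter] at hv
      have h6 := h3 (SubBisC.rk C v) (SubBisC.rk_lt hv.2) (SubBisC.rk_lt hv.2)
      rw [SubBisC.cs_rk h.sub hv.2] at h6
      exact h6 hv.1)
    simp only
    rw [h4]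
    push_cast
    rfl
  · rintro j ⟨i, W⟩ b hj ⟨h1, h2, h3⟩
    have h4 := hup W h2
    have h5 : Real.logb 2 (ind adj W) ≤ 2 * n := by
      rw [Real.logb_le_iff_le_rpow (by norm_num) (hpos W)]
      have h6 : ind adj W ≤ 2 ^ (n + n) := (ind_le_two_pow W).trans
        (Nat.pow_le_pow_right (by norm_num) (by simpa using card_le_card h2))
      have h7 : (ind adj W : ℝ) ≤ 2 ^ (n + n) := by exact_mod_cast h6
      refine h7.trans (le_of_eq ?_)
      rw [← Real.rpow_natCast]
      congr 1
      push_cast
      ring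
    have h8 : (e W : ℝ) ≤ (dm : ℝ) := by linarith
    have h9 : e W ≤ dm := by exact_mod_cast h8
    simp only
    omega
  · rintro j ⟨i, W⟩ ⟨h1, h2, h3⟩
    simp only
    set m := meanI adj W fun I => (fewI adj adjH a N d W I : ℝ) with hm
    have h4 := hlow W h2
    have h5 : Real.logb 2 (ind adj W) ≤ e W + (δ₂ + η * m) := h4
    rw [Real.logb_le_iff_le_rpow (by norm_num) (hpos W), Real.rpow_add (by norm_num),
      Real.rpow_add (by norm_num), Real.rpow_natCast] at h5
    have h6 := jensen_indS (adj := adj) W fun I => η * (fewI adj adjH a N d W I : ℝ)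
    have h7 : meanI adj W (fun I => η * (fewI adj adjH a N d W I : ℝ)) = η * m := by
      rw [hm]
      unfold meanI
      rw [← mul_sum, mul_div_assoc]
    rw [h7] at h6
    have h8 : (ind adj W : ℝ) * (2 : ℝ) ^ (η * m) ≤ PW adj adjH a N d η W := h6
    calc (ind adj W : ℝ) ^ 2 = ind adj W * ind adj W := sq _
      _ ≤ ind adj W * (2 ^ e W * (2 ^ δ₂ * 2 ^ (η * m))) :=
          mul_le_mul_of_nonneg_left h5 (hpos W).le
      _ = 2 ^ δ₂ * (ind adj W * 2 ^ (η * m)) * 2 ^ e W := by ring
      _ ≤ 2 ^ δ₂ * PW adj adjH a N d η W * 2 ^ e W := by gcongr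
  · intro j X hj hX
    obtain ⟨x, hx, e0, e1⟩ := hkids j X hj hX
    simp only [e0, e1]
    rw [← mul_add]
    exact mul_le_mul_of_nonneg_left (PW_super h.symm h.irrefl hsub h0 hx) (by positivity)
  · simp only
    rw [mul_assoc]
    exact mul_le_mul_of_nonneg_left hroot (by positivity)

end Pool.Agent.Lib.P7sA
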